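import Mathlib
import Pool.Agent.X69.DPG

/-! In the degree-preserving Builder-Chooser game, complete graphs can be forced from graphs of
arbitrarily large girth, indeed from a disjoint union of edges. -/

namespace Pool.Agent.Results.MP_d3b86e_co.ForcingFinite

open Pool.Agent.X69.DPG

/-- `ρ(k, g) < ∞` for all `k` and `g`; more strongly, for every `k ≥ 1` there is a finite graph of
maximum degree at most one (pairwise disjoint edges and isolated vertices) from which Builder can
force a copy of `K_k` in `upper k` rounds, where `upper 0 = 0` and
`upper (i + 1) = upper i + 2 ^ upper i`. -/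
theorem result :
    (∀ k g : ℕ, rhoGirth k g < ⊤) ∧
      ∀ k : ℕ, 1 ≤ k → ∃ (V : Type) (_ : Finite V) (G : SimpleGraph V),
        (∀ v u u' : V, G.Adj v u → G.Adj v u' → u = u') ∧ Forces k (upper k) G :=
  ⟨rhoGirth_lt_top, exists_matching_start⟩

end Pool.Agent.Results.MP_d3b86e_co.ForcingFinite
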